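import Pool.Agent.Work.MP_e7dc85_e7.Interface

/-!
# MP_e7dc85_an: block B4 (two-sided Liouville theorem), typed by helper98
-/

set_option autoImplicit false

namespace Pool.E7

namespace B4

open Finset Filter Topology

variable {G : Type} [Group G] {m : ℕ}

noncomputable def MR (s : Fin (m + 1) → G) (h : G → ℝ) : G → ℝ :=
  fun x => ((m : ℝ) + 1)⁻¹ * ∑ i, h (x * s i)

noncomputable def ML (s : Fin (m + 1) → G) (h : G → ℝ) : G → ℝ :=
  fun x => ((m : ℝ) + 1)⁻¹ * ∑ i, h (s i * x)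

theorem MR_apply (s : Fin (m + 1) → G) (h : G → ℝ) (x : G) :
    MR s h x = ((m : ℝ) + 1)⁻¹ * ∑ i, h (x * s i) := rfl

theorem ML_apply (s : Fin (m + 1) → G) (h : G → ℝ) (x : G) :
    ML s h x = ((m : ℝ) + 1)⁻¹ * ∑ i, h (s i * x) := rfl

theorem c_nonneg : (0 : ℝ) ≤ ((m : ℝ) + 1)⁻¹ := by positivity

theorem c_pos : (0 : ℝ) < ((m : ℝ) + 1)⁻¹ := by positivity

theorem MR_mono (s : Fin (m + 1) → G) {h h' : G → ℝ} (hh : ∀ x, h x ≤ h' x) :
    ∀ x, MR s h x ≤ MR s h' x := by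
  intro x
  rw [MR_apply, MR_apply]
  exact mul_le_mul_of_nonneg_left (Finset.sum_le_sum fun i _ => hh _) c_nonneg

theorem comm (s : Fin (m + 1) → G) (h : G → ℝ) : MR s (ML s h) = ML s (MR s h) := by
  funext x
  simp only [MR_apply, ML_apply, Finset.mul_sum]
  rw [Finset.sum_comm]
  simp only [mul_assoc]

theorem it_mono (s : Fin (m + 1) → G) (k : ℕ) {h h' : G → ℝ} (hh : ∀ x, h x ≤ h' x) :
    ∀ x, (MR s)^[k] h x ≤ (MR s)^[k] h' x := by
  induction k with
  | zero => simpa using hh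
  | succ k ih =>
    intro x
    rw [Function.iterate_succ_apply', Function.iterate_succ_apply']
    exact MR_mono s ih x

theorem it_add (s : Fin (m + 1) → G) (κ : ℝ) (h d : G → ℝ) (k : ℕ) :
    ∀ x, (MR s)^[k] (fun x => h x + κ * d x) x = (MR s)^[k] h x + κ * (MR s)^[k] d x := by
  induction k with
  | zero => intro x; rfl
  | succ k ih =>
    intro x
    rw [Function.iterate_succ_apply', Function.iterate_succ_apply', Function.iterate_succ_apply',
      MR_apply, MR_apply, MR_apply]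
    simp only [ih]
    rw [Finset.sum_add_distrib, ← Finset.mul_sum]
    ring

theorem it_const (s : Fin (m + 1) → G) (M : ℝ) (k : ℕ) :
    ∀ x, (MR s)^[k] (fun _ => M) x = M := by
  induction k with
  | zero => intro x; rfl
  | succ k ih =>
    intro x
    rw [Function.iterate_succ_apply', MR_apply]
    simp only [ih]
    rw [Finset.sum_const, Finset.card_univ, Fintype.card_fin, nsmul_eq_mul]
    push_cast
    have : (m : ℝ) + 1 ≠ 0 := by positivity
    field_simp

theorem it_comm (s : Fin (m + 1) → G) (h : G → ℝ) (k : ℕ) :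
    (MR s)^[k] (ML s h) = ML s ((MR s)^[k] h) := by
  induction k with
  | zero => rfl
  | succ k ih =>
    rw [Function.iterate_succ_apply', Function.iterate_succ_apply', ih, comm]

theorem le_it (s : Fin (m + 1) → G) {d : G → ℝ} (hd : ∀ x, d x ≤ MR s d x) (k : ℕ) :
    ∀ x, d x ≤ (MR s)^[k] d x := by
  induction k with
  | zero => intro x; exact le_refl _
  | succ k ih =>
    intro x
    rw [Function.iterate_succ_apply']
    exact (hd x).trans (MR_mono s ih x)

theorem it_nonneg (s : Fin (m + 1) → G) {d : G → ℝ} (hd : ∀ x, 0 ≤ d x) (k : ℕ) (x : G) :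
    0 ≤ (MR s)^[k] d x := by
  have := it_mono s k (h := fun _ => (0 : ℝ)) (h' := d) hd x
  rwa [it_const] at this

/-- the scalar part -/
theorem key (s : Fin (m + 1) → G) (hs : Submonoid.closure (Set.range s) = ⊤) (h d : G → ℝ) (κ M : ℝ)
    (hκ : 0 < κ) (hM : ∀ x, h x ≤ M) (hd0 : ∀ x, 0 ≤ d x) (hd : ∀ x, d x ≤ MR s d x)
    (hh : ∀ x, h x + κ * d x ≤ ML s h x) : ∀ x, d x = 0 := by
  have hstep : ∀ k : ℕ, (MR s)^[k] h 1 + κ * (MR s)^[k] d 1 ≤ (MR s)^[k + 1] h 1 := by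
    intro k
    have h1 := it_mono s k hh 1
    rw [it_add, it_comm, ML_apply] at h1
    rw [Function.iterate_succ_apply', MR_apply]
    simpa only [mul_one, one_mul] using h1
  set a : ℕ → ℝ := fun k => (MR s)^[k] h 1 with ha
  have hmono : Monotone a := by
    apply monotone_nat_of_le_succ
    intro k
    have h1 := hstep k
    have h2 : 0 ≤ κ * (MR s)^[k] d 1 := mul_nonneg hκ.le (it_nonneg s hd0 k 1)
    show (MR s)^[k] h 1 ≤ (MR s)^[k + 1] h 1
    linarith
  have hbdd : BddAbove (Set.range a) := by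
    refine ⟨M, ?_⟩
    rintro _ ⟨k, rfl⟩
    have := it_mono s k (h := h) (h' := fun _ => M) hM 1
    rwa [it_const] at this
  have hlim := tendsto_atTop_ciSup hmono hbdd
  have hdiff : Tendsto (fun k => κ⁻¹ * (a (k + 1) - a k)) atTop (𝓝 0) := by
    have h1 : Tendsto (fun k => a (k + 1)) atTop (𝓝 (⨆ i, a i)) :=
      hlim.comp (tendsto_add_atTop_nat 1)
    have h2 := (h1.sub hlim).const_mul κ⁻¹
    simpa using h2
  have he1 : Tendsto (fun k => (MR s)^[k] d 1) atTop (𝓝 0) := by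
    refine squeeze_zero (fun k => it_nonneg s hd0 k 1) (fun k => ?_) hdiff
    have h1 := hstep k
    have h2 : κ * (MR s)^[k] d 1 ≤ a (k + 1) - a k := by
      show κ * (MR s)^[k] d 1 ≤ (MR s)^[k + 1] h 1 - (MR s)^[k] h 1
      linarith
    rw [inv_mul_eq_div, le_div_iff₀ hκ]
    linarith
  have hall : ∀ x : G, Tendsto (fun k => (MR s)^[k] d x) atTop (𝓝 0) := by
    intro x
    have hx : x ∈ Submonoid.closure (Set.range s) := by rw [hs]; trivial
    induction hx using Submonoid.closure_induction_right with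
    | one => exact he1
    | mul_right x hx y hy ih =>
      obtain ⟨i, rfl⟩ := hy
      have h1 : Tendsto (fun k => ((m : ℝ) + 1) * (MR s)^[k + 1] d x) atTop (𝓝 0) := by
        have h2 : Tendsto (fun k => (MR s)^[k + 1] d x) atTop (𝓝 0) :=
          ih.comp (tendsto_add_atTop_nat 1)
        simpa using h2.const_mul ((m : ℝ) + 1)
      refine squeeze_zero (fun k => it_nonneg s hd0 k _) (fun k => ?_) h1
      rw [Function.iterate_succ_apply', MR_apply]
      have h3 : (MR s)^[k] d (x * s i) ≤ ∑ j, (MR s)^[k] d (x * s j) :=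
        Finset.single_le_sum (f := fun j => (MR s)^[k] d (x * s j))
          (fun j _ => it_nonneg s hd0 k _) (Finset.mem_univ i)
      have h4 : (m : ℝ) + 1 ≠ 0 := by positivity
      rw [← mul_assoc, mul_inv_cancel₀ h4, one_mul]
      exact h3
  intro x
  apply le_antisymm _ (hd0 x)
  exact ge_of_tendsto' (hall x) (fun k => le_it s hd k x)

end B4

open B4 in
theorem p_B4 : S_B4 := by
  intro G _ m s hs E _ _ l r hlr q κ hκ hql hqr hqn hq Φ M hM hL hR
  have hq0 : ∀ v, 0 ≤ q v := fun v => (sq_nonneg _).trans (hqn v)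
  -- the right submean property of a right harmonic function
  have hsub : ∀ Ψ : G → E, (∀ x, ((m : ℂ) + 1)⁻¹ • ∑ i, r i (Ψ (x * s i)) = Ψ x) →
      ∀ x, q (Ψ x) ≤ MR s (fun y => q (Ψ y)) x := by
    intro Ψ hΨ x
    have h1 := hq (fun i => r i (Ψ (x * s i)))
    rw [hΨ x] at h1
    simp only [hqr] at h1
    have h2 : 0 ≤ κ * (((m : ℝ) + 1)⁻¹ * ∑ i, q (r i (Ψ (x * s i)) - Ψ x)) :=
      mul_nonneg hκ.le (mul_nonneg c_nonneg (Finset.sum_nonneg fun i _ => hq0 _))
    rw [MR_apply]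
    linarith
  have hΨ : ∀ i, ∀ x, ((m : ℂ) + 1)⁻¹ • ∑ j, r j (l i (Φ (s i * (x * s j))) - Φ (x * s j))
      = l i (Φ (s i * x)) - Φ x := by
    intro i x
    simp only [map_sub, ← hlr]
    rw [Finset.sum_sub_distrib, smul_sub, hR x, ← map_sum, ← map_smul]
    congr 2
    rw [← hR (s i * x)]
    simp only [mul_assoc]
  set d : G → ℝ := fun x => ((m : ℝ) + 1)⁻¹ * ∑ i, q (l i (Φ (s i * x)) - Φ x) with hd
  have hd0 : ∀ x, 0 ≤ d x := fun x => mul_nonneg c_nonneg (Finset.sum_nonneg fun i _ => hq0 _)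
  have hdM : ∀ x, d x ≤ MR s d x := by
    intro x
    have h1 : ∀ i, q (l i (Φ (s i * x)) - Φ x)
        ≤ ((m : ℝ) + 1)⁻¹ * ∑ j, q (l i (Φ (s i * (x * s j))) - Φ (x * s j)) := fun i =>
      hsub (fun y => l i (Φ (s i * y)) - Φ y) (hΨ i) x
    rw [MR_apply]
    show ((m : ℝ) + 1)⁻¹ * ∑ i, q (l i (Φ (s i * x)) - Φ x) ≤ ((m : ℝ) + 1)⁻¹ *
      ∑ j, ((m : ℝ) + 1)⁻¹ * ∑ i, q (l i (Φ (s i * (x * s j))) - Φ (x * s j))
    apply mul_le_mul_of_nonneg_left _ c_nonneg
    calc ∑ i, q (l i (Φ (s i * x)) - Φ x)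
        ≤ ∑ i, ((m : ℝ) + 1)⁻¹ * ∑ j, q (l i (Φ (s i * (x * s j))) - Φ (x * s j)) :=
          Finset.sum_le_sum fun i _ => h1 i
      _ = ∑ j, ((m : ℝ) + 1)⁻¹ * ∑ i, q (l i (Φ (s i * (x * s j))) - Φ (x * s j)) := by
          simp only [Finset.mul_sum]
          rw [Finset.sum_comm]
  have hh : ∀ x, q (Φ x) + κ * d x ≤ ML s (fun y => q (Φ y)) x := by
    intro x
    have h1 := hq (fun i => l i (Φ (s i * x)))
    rw [hL x] at h1
    simp only [hql] at h1
    rw [ML_apply]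
    exact h1
  have hz := key s hs (fun y => q (Φ y)) d κ M hκ hM hd0 hdM hh
  intro i x
  have h1 := hz x
  have h2 : ∑ i, q (l i (Φ (s i * x)) - Φ x) = 0 := by
    rcases mul_eq_zero.1 h1 with h3 | h3
    · exact absurd h3 c_pos.ne'
    · exact h3
  have h3 := (Finset.sum_eq_zero_iff_of_nonneg (fun i _ => hq0 _)).1 h2 i (Finset.mem_univ i)
  have h4 : ‖l i (Φ (s i * x)) - Φ x‖ ^ 2 ≤ 0 := by
    rw [← h3]
    exact hqn _
  have h5 : ‖l i (Φ (s i * x)) - Φ x‖ = 0 := by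
    have := sq_nonneg ‖l i (Φ (s i * x)) - Φ x‖
    exact pow_eq_zero_iff (two_ne_zero) |>.1 (le_antisymm h4 this)
  exact sub_eq_zero.1 (norm_eq_zero.1 h5)

end Pool.E7
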