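import Pool.Agent.Work.MP_e7dc85_e7.Interface

set_option autoImplicit false

namespace Pool.E7

namespace B8

variable {A : Type} [NormedRing A] [NormedAlgebra ℂ A]

/-- continuous coordinates modulo a closed subspace of finite codimension -/
lemma coords (I : Submodule ℂ A) (hIc : IsClosed (I : Set A)) (hfd : FiniteDimensional ℂ (A ⧸ I)) :
    ∃ (n : ℕ) (c : Fin n → A →L[ℂ] ℂ) (b' : Fin n → A), (∀ x ∈ I, ∀ i, c i x = 0) ∧
      (∀ x, x - ∑ i, c i x • b' i ∈ I) ∧ ∀ i j, c i (b' j) = if i = j then 1 else 0 := by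
  have : IsClosed (I : Set A) := hIc
  let b := Module.finBasis ℂ (A ⧸ I)
  have hlift : ∀ i, ∃ x : A, I.mkQ x = b i := fun i => I.mkQ_surjective (b i)
  choose b' hb' using hlift
  have hcont : Continuous (I.mkQ : A → A ⧸ I) := continuous_quotient_mk'
  let c : Fin (Module.finrank ℂ (A ⧸ I)) → A →L[ℂ] ℂ := fun i =>
    { toLinearMap := (b.coord i).comp I.mkQ
      cont := (LinearMap.continuous_of_finiteDimensional (b.coord i)).comp hcont }
  have hc : ∀ i x, c i x = b.coord i (I.mkQ x) := fun i x => rfl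
  refine ⟨_, c, b', ?_, ?_, ?_⟩
  · intro x hx i
    rw [hc]
    have : I.mkQ x = 0 := by simpa using hx
    rw [this, map_zero]
  · intro x
    have h1 : I.mkQ (x - ∑ i, c i x • b' i) = 0 := by
      rw [map_sub, map_sum]
      simp only [map_smul, hb', hc, Module.Basis.coord_apply]
      rw [Module.Basis.sum_repr, sub_self]
    exact (Submodule.Quotient.mk_eq_zero I).1 h1
  · intro i j
    rw [hc, hb', Module.Basis.coord_apply, Module.Basis.repr_self, Finsupp.single_apply]
    simp [eq_comm]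

end B8

theorem p_B8 : S_B8 := by
  intro A _ _ _ hM I hIc hIr hIl hfd lam hlam f hf
  obtain ⟨n, c, b', c1, c2, c3⟩ := B8.coords I hIc hfd
  -- the coordinates of products
  have hL : ∀ (a x : A) (i : Fin n), c i (a * x) = ∑ l, c i (a * b' l) * c l x := by
    intro a x i
    have h1 := c1 _ (hIl _ (c2 x) a) i
    rw [mul_sub, map_sub, sub_eq_zero, Finset.mul_sum, map_sum] at h1
    rw [h1]
    refine Finset.sum_congr rfl fun l _ => ?_
    rw [mul_smul_comm, map_smul, smul_eq_mul, mul_comm]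
  have hR : ∀ (a x : A) (i : Fin n), c i (x * a) = ∑ l, c l x * c i (b' l * a) := by
    intro a x i
    have h1 := c1 _ (hIr _ (c2 x) a) i
    rw [sub_mul, map_sub, sub_eq_zero, Finset.sum_mul, map_sum] at h1
    rw [h1]
    refine Finset.sum_congr rfl fun l _ => ?_
    rw [smul_mul_assoc, map_smul, smul_eq_mul]
  let ρ₂ : A →ₐ[ℂ] Matrix (Fin n) (Fin n) ℂ := AlgHom.ofLinearMap
    { toFun := fun a => Matrix.of fun i j => c i (a * b' j)
      map_add' := by
        intro a b
        ext i j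
        simp [add_mul]
      map_smul' := by
        intro r a
        ext i j
        simp }
    (by
      ext i j
      simp [c3, Matrix.one_apply])
    (by
      intro a b
      ext i j
      show c i (a * b * b' j) = _
      rw [mul_assoc, hL]
      rfl)
  let ρ₁ : A →ₐ[ℂ] Matrix (Fin n) (Fin n) ℂ := AlgHom.ofLinearMap
    { toFun := fun a => Matrix.of fun i j => c j (b' i * a)
      map_add' := by
        intro a b
        ext i j
        simp [mul_add]
      map_smul' := by
        intro r a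
        ext i j
        simp }
    (by
      ext i j
      simp [c3, Matrix.one_apply, eq_comm])
    (by
      intro a b
      ext i j
      show c j (b' i * (a * b)) = _
      rw [← mul_assoc, hR]
      rfl)
  have h2 : ∀ a i j, ρ₂ a i j = c i (a * b' j) := fun _ _ _ => rfl
  have h1 : ∀ a i j, ρ₁ a i j = c j (b' i * a) := fun _ _ _ => rfl
  have hb2 : Bdd ρ₂ := by
    refine ⟨∑ i, ∑ j, ‖c i‖ * ‖b' j‖, ?_⟩
    intro a i j
    rw [h2]
    calc ‖c i (a * b' j)‖ ≤ ‖c i‖ * ‖a * b' j‖ := (c i).le_opNorm _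
      _ ≤ ‖c i‖ * (‖a‖ * ‖b' j‖) := mul_le_mul_of_nonneg_left (norm_mul_le _ _) (norm_nonneg _)
      _ = (‖c i‖ * ‖b' j‖) * ‖a‖ := by ring
      _ ≤ (∑ i, ∑ j, ‖c i‖ * ‖b' j‖) * ‖a‖ := by
        refine mul_le_mul_of_nonneg_right ?_ (norm_nonneg _)
        refine le_trans (Finset.single_le_sum (f := fun j => ‖c i‖ * ‖b' j‖)
          (fun j _ => by positivity) (Finset.mem_univ j)) ?_
        exact Finset.single_le_sum (f := fun i => ∑ j, ‖c i‖ * ‖b' j‖)
          (fun i _ => by positivity) (Finset.mem_univ i)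
  have hb1 : Bdd ρ₁ := by
    refine ⟨∑ i, ∑ j, ‖c i‖ * ‖b' j‖, ?_⟩
    intro a i j
    rw [h1]
    calc ‖c j (b' i * a)‖ ≤ ‖c j‖ * ‖b' i * a‖ := (c j).le_opNorm _
      _ ≤ ‖c j‖ * (‖b' i‖ * ‖a‖) := mul_le_mul_of_nonneg_left (norm_mul_le _ _) (norm_nonneg _)
      _ = (‖c j‖ * ‖b' i‖) * ‖a‖ := by ring
      _ ≤ (∑ i, ∑ j, ‖c i‖ * ‖b' j‖) * ‖a‖ := by
        refine mul_le_mul_of_nonneg_right ?_ (norm_nonneg _)
        refine le_trans (Finset.single_le_sum (f := fun i => ‖c j‖ * ‖b' i‖)
          (fun j _ => by positivity) (Finset.mem_univ i)) ?_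
        exact Finset.single_le_sum (f := fun i => ∑ j, ‖c i‖ * ‖b' j‖)
          (fun i _ => by positivity) (Finset.mem_univ j)
  -- the derivation
  have hr : ∀ (a : A) (j : Fin n), a * b' j - ∑ l, ρ₂ a l j • b' l ∈ I := fun a j => c2 (a * b' j)
  have hr1 : ∀ (a : A) (i : Fin n), b' i * a - ∑ l, ρ₁ a i l • b' l ∈ I := fun a i => c2 (b' i * a)
  let δ : A →ₗ[ℂ] Matrix (Fin n) (Fin n) ℂ :=
    { toFun := fun a => Matrix.of fun i j => lam (b' i * (a * b' j - ∑ l, ρ₂ a l j • b' l))
      map_add' := by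
        intro a b
        ext i j
        show lam (b' i * ((a + b) * b' j - ∑ l, ρ₂ (a + b) l j • b' l))
          = lam (b' i * (a * b' j - ∑ l, ρ₂ a l j • b' l))
            + lam (b' i * (b * b' j - ∑ l, ρ₂ b l j • b' l))
        rw [← map_add, ← mul_add]
        congr 2
        rw [map_add, add_mul]
        simp only [Matrix.add_apply, add_smul, Finset.sum_add_distrib]
        abel
      map_smul' := by
        intro r a
        ext i j
        show lam (b' i * ((r • a) * b' j - ∑ l, ρ₂ (r • a) l j • b' l))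
          = r * lam (b' i * (a * b' j - ∑ l, ρ₂ a l j • b' l))
        have e : (r • a) * b' j - ∑ l, ρ₂ (r • a) l j • b' l
            = r • (a * b' j - ∑ l, ρ₂ a l j • b' l) := by
          rw [map_smul, smul_mul_assoc, smul_sub, Finset.smul_sum]
          simp only [Matrix.smul_apply, smul_assoc]
        rw [e, mul_smul_comm, map_smul, smul_eq_mul] }
  have hδ : ∀ a i j, δ a i j = lam (b' i * (a * b' j - ∑ l, ρ₂ a l j • b' l)) :=
    fun _ _ _ => rfl
  have hder : ∀ a b, δ (a * b) = ρ₁ a * δ b + δ a * ρ₂ b := by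
    intro a b
    ext i j
    rw [Matrix.add_apply, Matrix.mul_apply, Matrix.mul_apply]
    have e1 : a * b * b' j - ∑ l, ρ₂ (a * b) l j • b' l
        = a * (b * b' j - ∑ l, ρ₂ b l j • b' l)
          + ∑ k, ρ₂ b k j • (a * b' k - ∑ l, ρ₂ a l k • b' l) := by
      have e2 : ∑ l, ρ₂ (a * b) l j • b' l = ∑ k, ρ₂ b k j • ∑ l, ρ₂ a l k • b' l := by
        rw [map_mul]
        simp only [Matrix.mul_apply, Finset.sum_smul, Finset.smul_sum, smul_smul]
        rw [Finset.sum_comm]
        refine Finset.sum_congr rfl fun k _ => Finset.sum_congr rfl fun l _ => ?_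
        rw [mul_comm]
      rw [e2]
      simp only [smul_sub, Finset.sum_sub_distrib, mul_sub, Finset.mul_sum, mul_smul_comm,
        mul_assoc]
      abel
    rw [hδ, e1, mul_add, map_add]
    congr 1
    · -- the first summand
      set r := b * b' j - ∑ l, ρ₂ b l j • b' l with hrdef
      have hrI : r ∈ I := hr b j
      have e3 : b' i * (a * r) = (b' i * a - ∑ l, ρ₁ a i l • b' l) * r
          + ∑ l, ρ₁ a i l • (b' l * r) := by
        rw [sub_mul, Finset.sum_mul, mul_assoc]
        simp only [smul_mul_assoc]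
        abel
      rw [e3, map_add, hlam _ (hr1 a i) _ hrI, zero_add, map_sum]
      refine Finset.sum_congr rfl fun l _ => ?_
      rw [map_smul, smul_eq_mul, hδ]
    · rw [Finset.mul_sum, map_sum]
      refine Finset.sum_congr rfl fun l _ => ?_
      rw [mul_smul_comm, map_smul, smul_eq_mul, hδ, mul_comm]
  have hρ1f : ρ₁ f = 0 := by
    ext i j
    rw [h1]
    exact c1 _ (hIl f hf (b' i)) j
  have hρ2f : ρ₂ f = 0 := by
    ext i j
    rw [h2]
    exact c1 _ (hIr f hf (b' j)) i
  have hmain := hM n ρ₁ ρ₂ hb1 hb2 δ hder f hρ1f hρ2f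
  have h3 : ∀ i j, lam (b' i * (f * b' j)) = 0 := by
    intro i j
    have h4 := hδ f i j
    rw [hmain, hρ2f] at h4
    simpa using h4.symm
  -- `1` is a combination of the `b'` modulo `I`
  have hk := c2 1
  set k₀ := (1 : A) - ∑ i, c i 1 • b' i with hk0
  have h1e : (1 : A) = k₀ + ∑ i, c i 1 • b' i := by rw [hk0]; abel
  have h5 : ∀ i, lam (b' i * f) = 0 := by
    intro i
    have e5 : b' i * f = (b' i * f) * k₀ + ∑ j, c j 1 • (b' i * (f * b' j)) := by
      conv_lhs => rw [← mul_one (b' i * f), h1e]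
      rw [mul_add, Finset.mul_sum]
      simp only [mul_smul_comm, mul_assoc]
    rw [e5, map_add, hlam _ (hIl f hf _) _ hk, zero_add, map_sum]
    refine Finset.sum_eq_zero fun j _ => ?_
    rw [map_smul, h3, smul_zero]
  have e6 : f = k₀ * f + ∑ i, c i 1 • (b' i * f) := by
    conv_lhs => rw [← one_mul f, h1e]
    rw [add_mul, Finset.sum_mul]
    simp only [smul_mul_assoc]
  rw [e6, map_add, hlam _ hk _ hf, zero_add, map_sum]
  refine Finset.sum_eq_zero fun j _ => ?_
  rw [map_smul, h5, smul_zero]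

end Pool.E7
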