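import Mathlib

/-!
# MP_e7dc85_an, statement S06520: closed cofinite ideals of `ℓ¹(G)` are idempotent. Interface (helper9)

Every block is a `Prop` `S_..`; a block file proves `theorem p_.. : S_..` (no hypotheses).
-/

set_option autoImplicit false

namespace Pool.E7

/-- abstract `ℓ¹(G)` -/
structure IsL1 {G : Type} [Group G] {A : Type} [NormedRing A] [NormedAlgebra ℂ A] (u : G →* A) : Prop where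
  norm_u : ∀ x, ‖u x‖ ≤ 1
  dense : Dense (Submodule.span ℂ (Set.range u) : Set A)
  twist : ∀ c : G → ℂ, (∃ C : ℝ, ∀ x, ‖c x‖ ≤ C) → ∃ T : A →L[ℂ] A, ∀ x, T (u x) = c x • u x
  func : ∀ c : G → ℂ, (∃ C : ℝ, ∀ x, ‖c x‖ ≤ C) → ∃ T : A →L[ℂ] ℂ, ∀ x, T (u x) = c x

/-- bounded matrix representation -/
def Bdd {A : Type} [NormedRing A] [NormedAlgebra ℂ A] {n : ℕ} (ρ : A →ₐ[ℂ] Matrix (Fin n) (Fin n) ℂ) : Prop :=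
  ∃ K : ℝ, ∀ a i j, ‖ρ a i j‖ ≤ K * ‖a‖

/-- the twisted homomorphism `Θ(a)_ij = a(y) ρ(y⁻¹)_ji` -/
structure Theta {G : Type} [Group G] {A : Type} [NormedRing A] [NormedAlgebra ℂ A] (u : G →* A) {n : ℕ}
    (ρ : A →ₐ[ℂ] Matrix (Fin n) (Fin n) ℂ) (ε : A →L[ℂ] ℂ) (Θ : A →ₐ[ℂ] Matrix (Fin n) (Fin n) A) : Prop where
  on_u : ∀ x i j, Θ (u x) i j = ρ (u x⁻¹) j i • u x
  bdd : ∃ C : ℝ, ∀ a i j, ‖Θ a i j‖ ≤ C * ‖a‖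
  left : ∀ a r l, ∑ i, ρ (Θ a i r) i l = if r = l then ε a else 0
  right : ∀ a r l, ∑ j, ρ (Θ a r j) l j = if r = l then ε a else 0

/-- left and right multiplication of matrices, on the Banach space `Fin n → Fin n → A` -/
def lop {A : Type} [NormedRing A] {n : ℕ} (M : Matrix (Fin n) (Fin n) A) (F : Fin n → Fin n → A) : Fin n → Fin n → A :=
  fun i j => ∑ r, M i r * F r j

def rop {A : Type} [NormedRing A] {n : ℕ} (M : Matrix (Fin n) (Fin n) A) (F : Fin n → Fin n → A) : Fin n → Fin n → A :=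
  fun i j => ∑ r, F i r * M r j

def W1 {A : Type} [NormedRing A] [NormedAlgebra ℂ A] {n : ℕ} (ρ₁ : A →ₐ[ℂ] Matrix (Fin n) (Fin n) ℂ)
    (F : Fin n → Fin n → A) : Prop := ∀ l j, ∑ i, ρ₁ (F i j) i l = 0

def W2 {A : Type} [NormedRing A] [NormedAlgebra ℂ A] {n : ℕ} (ρ₂ : A →ₐ[ℂ] Matrix (Fin n) (Fin n) ℂ)
    (F : Fin n → Fin n → A) : Prop := ∀ i l, ∑ j, ρ₂ (F i j) l j = 0

/-- the mean of `u (s i)` -/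
noncomputable def mean {G : Type} [Group G] {A : Type} [NormedRing A] [NormedAlgebra ℂ A] (u : G →* A) {m : ℕ}
    (s : Fin (m + 1) → G) : A := ((m : ℂ) + 1)⁻¹ • ∑ i, u (s i)

/-- B0: `lp 1` is a model of `IsL1`, multiplication is convolution -/
def S_B0 : Prop := ∀ (G : Type) [Group G], ∃ (A : Type) (_ : NormedRing A) (_ : NormedAlgebra ℂ A) (_ : CompleteSpace A)
  (u : G →* A) (e : lp (fun _ : G => ℂ) 1 ≃ₗᵢ[ℂ] A), IsL1 u ∧ ‖(1 : A)‖ ≤ 1 ∧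
    ∀ a b c : lp (fun _ : G => ℂ) 1, e c = e a * e b ↔
      ∀ x : G, (c : G → ℂ) x = ∑' y : G, (a : G → ℂ) y * (b : G → ℂ) (y⁻¹ * x)

/-- B1: factorization `F = (1 - L ν) F'` of an `F` in the closure of the range of `1 - L μ`.
Proof: `p k = (1/n_k) ∑_{i<n_k} μ^i` with `‖L (p k) F‖ ≤ 8^{-k}` (tends to 0 because `‖p_n (1-μ)‖ ≤ 2/n`),
`P k = ∑_{j<k} 2^{-j-1} p j`, norm `≤ 1 - 2^{-k}`, `r k = (1 - P k)⁻¹` (Neumann series), `‖r k‖ ≤ 2^k`,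
`H k = L (r k) F`, `H (k+1) - H k = L (r (k+1) r k 2^{-k-1} p k) F` (all commute), so `H k → F'`, `P k → ν`. -/
def S_B1 : Prop := ∀ (A : Type) [NormedRing A] [NormedAlgebra ℂ A] [CompleteSpace A] (_ : ‖(1 : A)‖ ≤ 1)
  (Y : Type) [NormedAddCommGroup Y] [NormedSpace ℂ Y] [CompleteSpace Y]
  (L : A →ₐ[ℂ] (Y →L[ℂ] Y)) (C : ℝ) (_ : ∀ a, ‖L a‖ ≤ C * ‖a‖)
  (ε : A →L[ℂ] ℂ) (_ : ∀ a b, ε (a * b) = ε a * ε b) (_ : ε 1 = 1) (μ : A) (_ : ‖μ‖ ≤ 1) (_ : ε μ = 1)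
  (U : Submodule ℂ Y) (_ : IsClosed (U : Set Y)) (_ : ∀ a, ∀ F ∈ U, L a F ∈ U)
  (F : Y) (_ : F ∈ U) (_ : F ∈ closure (Set.range (fun H : Y => H - L μ H))),
  ∃ ν : A, ∃ F' ∈ U, ε ν = 1 ∧ F = F' - L ν F'

/-- B2: decomposition by Cesàro means of `P` and `Q` -/
def S_B2 : Prop := ∀ (Y : Type) [NormedAddCommGroup Y] [NormedSpace ℂ Y] [CompleteSpace Y]
  (P Q : Y →L[ℂ] Y) (_ : ∀ F, P (Q F) = Q (P F)) (C : ℝ) (_ : ∀ n : ℕ, ‖P ^ n‖ ≤ C) (_ : ∀ n : ℕ, ‖Q ^ n‖ ≤ C)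
  (U : Submodule ℂ Y) (_ : IsClosed (U : Set Y)) (_ : ∀ F ∈ U, P F ∈ U) (_ : ∀ F ∈ U, Q F ∈ U)
  (_ : ∀ F ∈ U, F ∈ closure {F : Y | ∃ G H : Y, F = (G - P G) + (H - Q H)}),
  ∀ F ∈ U, ∃ F₁ ∈ U, ∃ F₂ ∈ U, F = F₁ + F₂ ∧ F₁ ∈ closure (Set.range fun G : Y => G - P G) ∧
    F₂ ∈ closure (Set.range fun G : Y => G - Q G)

/-- B3: `q v = sup_k ‖π k v‖²`, `κ = B⁻²` (or any smaller positive number) -/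
def S_B3 : Prop := ∀ (K : Type) [Group K] (E : Type) [NormedAddCommGroup E] [InnerProductSpace ℂ E]
  (π : K →* (E →ₗ[ℂ] E)) (B : ℝ) (_ : ∀ k v, ‖π k v‖ ≤ B * ‖v‖),
  ∃ q : E → ℝ, ∃ κ : ℝ, 0 < κ ∧ (∀ k v, q (π k v) = q v) ∧ (∀ v, ‖v‖ ^ 2 ≤ q v) ∧ (∀ v, q v ≤ B ^ 2 * ‖v‖ ^ 2) ∧
    ∀ (m : ℕ) (v : Fin (m + 1) → E),
      q (((m : ℂ) + 1)⁻¹ • ∑ i, v i) + κ * (((m : ℝ) + 1)⁻¹ * ∑ i, q (v i - ((m : ℂ) + 1)⁻¹ • ∑ j, v j))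
        ≤ ((m : ℝ) + 1)⁻¹ * ∑ i, q (v i)

/-- B4: two-sided Liouville theorem. Proof: `h x = q (Φ x)`, `a_m = (M'^m h)(1)` with `M' h x = avg_i h (x s_i)`,
`M h x = avg_i h (s_i x)`; `M g 1 = M' g 1`, `M`, `M'` commute; by `hqv`, `M h - h ≥ κ d`, `d x = avg_i q (l i Φ(s_i x) - Φ x)`;
so `κ (M'^m d)(1) ≤ a_(m+1) - a_m → 0` (bounded increasing); `Ψ x = l i Φ(s_i x) - Φ x` satisfies `hr`, so `q (Ψ x) ≤ M'^m (q ∘ Ψ) x`,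
and `(M'^j g)(1) ≥ c_x g(x)` for `g ≥ 0`, `j = j(x)`. -/
def S_B4 : Prop := ∀ (G : Type) [Group G] (m : ℕ) (s : Fin (m + 1) → G)
  (_ : Submonoid.closure (Set.range s) = ⊤) (E : Type) [NormedAddCommGroup E] [NormedSpace ℂ E]
  (l r : Fin (m + 1) → E →ₗ[ℂ] E) (_ : ∀ i j v, l i (r j v) = r j (l i v))
  (q : E → ℝ) (κ : ℝ) (_ : 0 < κ) (_ : ∀ i v, q (l i v) = q v) (_ : ∀ i v, q (r i v) = q v)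
  (_ : ∀ v, ‖v‖ ^ 2 ≤ q v)
  (_ : ∀ v : Fin (m + 1) → E,
      q (((m : ℂ) + 1)⁻¹ • ∑ i, v i) + κ * (((m : ℝ) + 1)⁻¹ * ∑ i, q (v i - ((m : ℂ) + 1)⁻¹ • ∑ j, v j))
        ≤ ((m : ℝ) + 1)⁻¹ * ∑ i, q (v i))
  (Φ : G → E) (M : ℝ) (_ : ∀ x, q (Φ x) ≤ M)
  (_ : ∀ x, ((m : ℂ) + 1)⁻¹ • ∑ i, l i (Φ (s i * x)) = Φ x)
  (_ : ∀ x, ((m : ℂ) + 1)⁻¹ • ∑ i, r i (Φ (x * s i)) = Φ x),
  ∀ i x, l i (Φ (s i * x)) = Φ x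

/-- B5: `ε` and `Θ` exist (extend by density, `IsL1.func`, `IsL1.twist`) -/
def S_B5 : Prop := ∀ (G : Type) [Group G] (A : Type) [NormedRing A] [NormedAlgebra ℂ A] [CompleteSpace A]
  (u : G →* A) (_ : IsL1 u), ∃ ε : A →L[ℂ] ℂ, (∀ x, ε (u x) = 1) ∧ (∀ a b, ε (a * b) = ε a * ε b) ∧ ε 1 = 1 ∧
    ∀ (n : ℕ) (ρ : A →ₐ[ℂ] Matrix (Fin n) (Fin n) ℂ), Bdd ρ → ∃ Θ : A →ₐ[ℂ] Matrix (Fin n) (Fin n) A, Theta u ρ ε Θ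

/-- B6a: bounded two-sided harmonic functions with values in matrices (from B3, B4): `Φ x = ρ₁(x) Φ 1` -/
def S_B6a : Prop := S_B3 → S_B4 → ∀ (G : Type) [Group G] (A : Type) [NormedRing A] [NormedAlgebra ℂ A]
  (u : G →* A) (_ : ∀ x, ‖u x‖ ≤ 1) (m : ℕ) (s : Fin (m + 1) → G) (_ : Submonoid.closure (Set.range s) = ⊤)
  (n : ℕ) (ρ₁ ρ₂ : A →ₐ[ℂ] Matrix (Fin n) (Fin n) ℂ) (_ : Bdd ρ₁) (_ : Bdd ρ₂)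
  (Φ : G → Matrix (Fin n) (Fin n) ℂ) (_ : ∃ C : ℝ, ∀ x i j, ‖Φ x i j‖ ≤ C)
  (_ : ∀ x, ((m : ℂ) + 1)⁻¹ • ∑ i, ρ₁ (u (s i)⁻¹) * Φ (s i * x) = Φ x)
  (_ : ∀ x, ((m : ℂ) + 1)⁻¹ • ∑ i, Φ (x * s i) * ρ₂ (u (s i)⁻¹) = Φ x),
  ∀ x, Φ x = ρ₁ (u x) * Φ 1

/-- B6: duality (Hahn-Banach): `W1` is contained in the closure of `(1 - L_μ)Y + (1 - R_μ)Y` -/
def S_B6 : Prop := S_B3 → S_B4 → S_B6a → ∀ (G : Type) [Group G] (A : Type) [NormedRing A] [NormedAlgebra ℂ A] [CompleteSpace A]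
  (u : G →* A) (_ : IsL1 u) (m : ℕ) (s : Fin (m + 1) → G) (_ : Submonoid.closure (Set.range s) = ⊤)
  (n : ℕ) (ρ₁ ρ₂ : A →ₐ[ℂ] Matrix (Fin n) (Fin n) ℂ) (_ : Bdd ρ₁) (_ : Bdd ρ₂) (ε : A →L[ℂ] ℂ)
  (Θ₁ Θ₂ : A →ₐ[ℂ] Matrix (Fin n) (Fin n) A) (_ : Theta u ρ₁ ε Θ₁) (_ : Theta u ρ₂ ε Θ₂)
  (F : Fin n → Fin n → A) (_ : W1 ρ₁ F),
  F ∈ closure {F : Fin n → Fin n → A | ∃ G H : Fin n → Fin n → A,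
    F = (G - lop (Θ₁ (mean u s)) G) + (H - rop (Θ₂ (mean u s)) H)}

/-- B7a: stability of `W1`, `W2` -/
def S_B7a : Prop := ∀ (G : Type) [Group G] (A : Type) [NormedRing A] [NormedAlgebra ℂ A]
  (u : G →* A) (n : ℕ) (ρ₁ ρ₂ : A →ₐ[ℂ] Matrix (Fin n) (Fin n) ℂ) (ε : A →L[ℂ] ℂ)
  (Θ₁ Θ₂ : A →ₐ[ℂ] Matrix (Fin n) (Fin n) A) (_ : Theta u ρ₁ ε Θ₁) (_ : Theta u ρ₂ ε Θ₂)
  (a : A) (F : Fin n → Fin n → A),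
  (W1 ρ₁ F → W1 ρ₁ (lop (Θ₁ a) F)) ∧ (W2 ρ₂ F → W2 ρ₂ (lop (Θ₁ a) F)) ∧
  (W1 ρ₁ F → W1 ρ₁ (rop (Θ₂ a) F)) ∧ (W2 ρ₂ F → W2 ρ₂ (rop (Θ₂ a) F))

/-- B7b: the trace functional -/
def S_B7b : Prop := ∀ (G : Type) [Group G] (A : Type) [NormedRing A] [NormedAlgebra ℂ A]
  (u : G →* A) (n : ℕ) (ρ₁ ρ₂ : A →ₐ[ℂ] Matrix (Fin n) (Fin n) ℂ) (ε : A →L[ℂ] ℂ)
  (Θ₁ Θ₂ : A →ₐ[ℂ] Matrix (Fin n) (Fin n) A) (_ : Theta u ρ₁ ε Θ₁) (_ : Theta u ρ₂ ε Θ₂)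
  (δ : A →ₗ[ℂ] Matrix (Fin n) (Fin n) ℂ) (_ : ∀ a b, δ (a * b) = ρ₁ a * δ b + δ a * ρ₂ b)
  (a : A) (F : Fin n → Fin n → A),
  (W2 ρ₂ F → ∑ i, ∑ j, δ (lop (Θ₁ a) F i j) i j = ε a * ∑ i, ∑ j, δ (F i j) i j) ∧
  (W1 ρ₁ F → ∑ i, ∑ j, δ (rop (Θ₂ a) F i j) i j = ε a * ∑ i, ∑ j, δ (F i j) i j)

/-- the main theorem on derivations -/
def S_Main : Prop := ∀ (G : Type) [Group G] (A : Type) [NormedRing A] [NormedAlgebra ℂ A] [CompleteSpace A]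
  (_ : ‖(1 : A)‖ ≤ 1) (u : G →* A) (_ : IsL1 u) (m : ℕ) (s : Fin (m + 1) → G) (_ : Submonoid.closure (Set.range s) = ⊤)
  (n : ℕ) (ρ₁ ρ₂ : A →ₐ[ℂ] Matrix (Fin n) (Fin n) ℂ) (_ : Bdd ρ₁) (_ : Bdd ρ₂)
  (δ : A →ₗ[ℂ] Matrix (Fin n) (Fin n) ℂ) (_ : ∀ a b, δ (a * b) = ρ₁ a * δ b + δ a * ρ₂ b)
  (f : A) (_ : ρ₁ f = 0) (_ : ρ₂ f = 0), δ f = 0

/-- B7c: assembly of the main theorem -/
def S_B7c : Prop := S_B1 → S_B2 → S_B3 → S_B4 → S_B5 → S_B6a → S_B6 → S_B7a → S_B7b → S_Main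

/-- B8: the algebraic part. `ρ₂` = left action on `A ⧸ I`, `ρ₁` = right action on the dual, `b` a basis, `b' i` lifts,
`δ f i j = lam (b' i * (f * b' j - ∑ l, ρ₂ f l j • b' l))`. -/
def S_B8 : Prop := ∀ (A : Type) [NormedRing A] [NormedAlgebra ℂ A] [CompleteSpace A]
  (_ : ∀ (n : ℕ) (ρ₁ ρ₂ : A →ₐ[ℂ] Matrix (Fin n) (Fin n) ℂ) (_ : Bdd ρ₁) (_ : Bdd ρ₂)
    (δ : A →ₗ[ℂ] Matrix (Fin n) (Fin n) ℂ) (_ : ∀ a b, δ (a * b) = ρ₁ a * δ b + δ a * ρ₂ b)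
    (f : A) (_ : ρ₁ f = 0) (_ : ρ₂ f = 0), δ f = 0)
  (I : Submodule ℂ A) (_ : IsClosed (I : Set A)) (_ : ∀ a ∈ I, ∀ b, a * b ∈ I) (_ : ∀ a ∈ I, ∀ b, b * a ∈ I)
  (_ : FiniteDimensional ℂ (A ⧸ I)) (lam : A →ₗ[ℂ] ℂ) (_ : ∀ a ∈ I, ∀ b ∈ I, lam (a * b) = 0),
  ∀ f ∈ I, lam f = 0

/-- B9: the frozen statement -/
def S_B9 : Prop := S_B0 → S_Main → S_B8 → ¬ (∃ I : Submodule ℂ (lp (fun _ : FreeGroup (Fin 2) => ℂ) 1),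
      IsClosed (I : Set (lp (fun _ : FreeGroup (Fin 2) => ℂ) 1)) ∧
      (∀ a ∈ I, ∀ b c : lp (fun _ : FreeGroup (Fin 2) => ℂ) 1,
        (∀ x : FreeGroup (Fin 2),
          (c : FreeGroup (Fin 2) → ℂ) x
            = ∑' y : FreeGroup (Fin 2),
                (a : FreeGroup (Fin 2) → ℂ) y * (b : FreeGroup (Fin 2) → ℂ) (y⁻¹ * x)) →
        c ∈ I) ∧
      (∀ a ∈ I, ∀ b c : lp (fun _ : FreeGroup (Fin 2) => ℂ) 1,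
        (∀ x : FreeGroup (Fin 2),
          (c : FreeGroup (Fin 2) → ℂ) x
            = ∑' y : FreeGroup (Fin 2),
                (b : FreeGroup (Fin 2) → ℂ) y * (a : FreeGroup (Fin 2) → ℂ) (y⁻¹ * x)) →
        c ∈ I) ∧
      Module.finrank ℂ ((lp (fun _ : FreeGroup (Fin 2) => ℂ) 1) ⧸ I) = 4 ∧
      ∃ c ∈ I, c ∉ Submodule.span ℂ
        {d : lp (fun _ : FreeGroup (Fin 2) => ℂ) 1 |
          ∃ a ∈ I, ∃ b ∈ I, ∀ x : FreeGroup (Fin 2),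
            (d : FreeGroup (Fin 2) → ℂ) x
              = ∑' y : FreeGroup (Fin 2),
                  (a : FreeGroup (Fin 2) → ℂ) y * (b : FreeGroup (Fin 2) → ℂ) (y⁻¹ * x)})

end Pool.E7
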